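import Pool.Agent.Helper97.Tns.Goals
import Pool.Agent.Helper10.Abund.OpenSub

/-!
MP_97d78d_ag, packet CHART: pluricanonical forms can be tested in the preferred charts.
-/

open scoped Manifold ContDiff ENNReal Topology
open MeasureTheory
open Pool.Agent.Helper16.Abund Pool.Agent.Helper97.Tns

namespace Pool.Agent.Helper3.Tns

universe u

theorem chart : S_CHART.{u} := by
  intro n X _ _ _ M c hc V ψ hV hψ z₀ hz₀
  set x₀ := ψ z₀ with hx₀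
  set χ := chartAt (Fin n → ℂ) x₀ with hχ
  have hψc : ContinuousAt ψ z₀ := (hψ.mdifferentiableAt (hV.mem_nhds hz₀)).continuousAt
  have hsrc : ∀ᶠ z in 𝓝 z₀, ψ z ∈ χ.source :=
    hψc.preimage_mem_nhds (χ.open_source.mem_nhds (mem_chart_source _ x₀))
  obtain ⟨V₁, hV₁sub, hV₁o, hz₀V₁⟩ := _root_.mem_nhds_iff.1
    (Filter.inter_mem (hV.mem_nhds hz₀) hsrc)
  have hψ₁ : MDifferentiableOn 𝓘(ℂ, Fin n → ℂ) 𝓘(ℂ, Fin n → ℂ) ψ V₁ :=
    hψ.mono fun z hz => (hV₁sub hz).1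
  have hψat : ∀ z ∈ V₁, MDifferentiableAt 𝓘(ℂ, Fin n → ℂ) 𝓘(ℂ, Fin n → ℂ) ψ z :=
    fun z hz => hψ₁.mdifferentiableAt (hV₁o.mem_nhds hz)
  have hχat : ∀ z ∈ V₁, MDifferentiableAt 𝓘(ℂ, Fin n → ℂ) 𝓘(ℂ, Fin n → ℂ) χ (ψ z) :=
    fun z hz => (mdiff_chart x₀).mdifferentiableAt (χ.open_source.mem_nhds (hV₁sub hz).2)
  have hχψ : ∀ z ∈ V₁, MDifferentiableAt 𝓘(ℂ, Fin n → ℂ) 𝓘(ℂ, Fin n → ℂ) (χ ∘ ψ) z :=
    fun z hz => (hχat z hz).comp z (hψat z hz)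
  have hh : DifferentiableOn ℂ (χ ∘ ψ) V₁ := fun z hz =>
    (hχψ z hz).differentiableAt.differentiableWithinAt
  have hjac : DifferentiableAt ℂ (fun z => jac n (χ ∘ ψ) z) z₀ := by
    have h1 : DifferentiableOn ℂ (fun z => (fderiv ℂ (χ ∘ ψ) z).det) V₁ :=
      Pool.Agent.Helper10.Abund.differentiableOn_det_fderiv hV₁o hh
    have h2 : (fun z => jac n (χ ∘ ψ) z) = fun z => (fderiv ℂ (χ ∘ ψ) z).det := by
      funext z
      exact jac_eq_fderiv _ _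
    rw [h2]
    exact h1.differentiableAt (hV₁o.mem_nhds hz₀V₁)
  have hcχ : DifferentiableAt ℂ (fun w => c (χ.symm w) * jac n χ.symm w ^ M) ((χ ∘ ψ) z₀) :=
    (hc x₀).self_of_nhds
  have hcomp : DifferentiableAt ℂ ((fun w => c (χ.symm w) * jac n χ.symm w ^ M) ∘ (χ ∘ ψ)) z₀ :=
    hcχ.comp z₀ (hh.differentiableAt (hV₁o.mem_nhds hz₀V₁))
  have hmul := hcomp.mul (hjac.pow M)
  refine (hmul.congr_of_eventuallyEq ?_).differentiableWithinAt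
  filter_upwards [hV₁o.mem_nhds hz₀V₁] with z hz
  have hzs : ψ z ∈ χ.source := (hV₁sub hz).2
  have hs : MDifferentiableAt 𝓘(ℂ, Fin n → ℂ) 𝓘(ℂ, Fin n → ℂ) χ.symm ((χ ∘ ψ) z) :=
    (mdiff_chart_symm x₀).mdifferentiableAt (χ.open_target.mem_nhds (χ.map_source hzs))
  have e1 : jac n ψ z = jac n χ.symm ((χ ∘ ψ) z) * jac n (χ ∘ ψ) z := by
    rw [← jac_comp hs (hχψ z hz)]
    apply jac_congr
    filter_upwards [hV₁o.mem_nhds hz] with w hw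
    simp only [Function.comp_apply]
    rw [χ.left_inv (hV₁sub hw).2]
  show c (ψ z) * jac n ψ z ^ M = c (χ.symm ((χ ∘ ψ) z)) * jac n χ.symm ((χ ∘ ψ) z) ^ M *
    jac n (χ ∘ ψ) z ^ M
  rw [e1, mul_pow, ← mul_assoc]
  simp only [Function.comp_apply]
  rw [χ.left_inv hzs]

end Pool.Agent.Helper3.Tns
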